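import Pool.Agent.W525.CB.Stm

/-!
# Project CB: the volume forms of two charts that differ by the transposition `(2, i + 3)`
-/

namespace Pool.Agent.W2.CB.V23

open Pool.Agent.W525.CB

theorem main : S_REL → S_DIF → S_V23 := by
  intro _ hDIF n i L _ _ _ x y hn hdat σ A
  classical
  set τ : Equiv.Perm (Fin (n + 3)) := Equiv.swap 2 i.succ.succ.succ with hτ
  have h2 : (2 : Fin (n + 3)) = (0 : Fin (n + 1)).succ.succ := by
    ext; simp
  have hτ0 : τ 0 = 0 := by
    rw [hτ]
    apply Equiv.swap_apply_of_ne_of_ne
    · rw [h2]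
      exact (Fin.succ_ne_zero _).symm
    · exact (Fin.succ_ne_zero _).symm
  have h1 : (1 : Fin (n + 3)) = (0 : Fin (n + 2)).succ := by
    ext; simp
  have hτ1 : τ 1 = 1 := by
    rw [hτ]
    apply Equiv.swap_apply_of_ne_of_ne
    · rw [h2, h1]
      intro h
      exact (Fin.succ_ne_zero _).symm (Fin.succ_injective _ h)
    · rw [h1]
      intro h
      exact (Fin.succ_ne_zero _).symm (Fin.succ_injective _ h)
  have hτ2 : τ 2 = i.succ.succ.succ := Equiv.swap_apply_left _ _
  have htt : ∀ m, tt x y (σ * τ) m = tt x y σ (τ m) := by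
    intro m
    unfold tt
    rw [Equiv.Perm.mul_apply, Equiv.Perm.mul_apply, Equiv.Perm.mul_apply, hτ0, hτ1]
  have hss : ∀ m, ss x (σ * τ) m = ss x σ (τ m) := by
    intro m
    unfold ss
    rw [Equiv.Perm.mul_apply, Equiv.Perm.mul_apply, hτ0]
  have hww : ∀ m, ww x y (σ * τ) m = ww x y σ (τ m) := by
    intro m
    unfold ww
    rw [hss, hss, htt, hτ1]
  have hx0 : x ((σ * τ) 0) = x (σ 0) := by
    rw [Equiv.Perm.mul_apply, hτ0]
  set e : Equiv.Perm (Fin (n + 1) ⊕ Fin n) := Equiv.swap (Sum.inl 0) (Sum.inl i.succ) with he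
  have hne : (Sum.inl 0 : Fin (n + 1) ⊕ Fin n) ≠ Sum.inl i.succ := by
    intro h
    exact (Fin.succ_ne_zero i).symm (Sum.inl_injective h)
  set F : Fin (n + 1) ⊕ Fin n → Ω[L⁄ℤ] := cfam x y σ ∘ e with hF
  have hFr : ∀ k : Fin n, F (Sum.inr k) =
      KaehlerDifferential.D ℤ L (ss x σ k.succ.succ.succ) := by
    intro k
    rw [hF, Function.comp_apply, he, Equiv.swap_apply_of_ne_of_ne (by simp) (by simp)]
    rfl
  have hcf : cfam x y (σ * τ) = Function.update F (Sum.inr i)
      (KaehlerDifferential.D ℤ L (ss x σ 2)) := by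
    funext a
    rcases a with j | k
    · rw [Function.update_of_ne (by simp)]
      change KaehlerDifferential.D ℤ L (tt x y (σ * τ) j.succ.succ) = _
      rw [htt, hF, Function.comp_apply]
      by_cases hj0 : j = 0
      · rw [hj0, ← h2, hτ2, he, Equiv.swap_apply_left]
        rfl
      · by_cases hji : j = i.succ
        · have h5 : τ i.succ.succ.succ = 2 := Equiv.swap_apply_right _ _
          have h6 : e (Sum.inl i.succ) = Sum.inl 0 := Equiv.swap_apply_right _ _
          rw [hji, h5, h6, h2]
          rfl
        · rw [he, Equiv.swap_apply_of_ne_of_ne (fun h => hj0 (Sum.inl_injective h))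
            (fun h => hji (Sum.inl_injective h))]
          have : τ j.succ.succ = j.succ.succ := by
            rw [hτ]
            apply Equiv.swap_apply_of_ne_of_ne
            · rw [h2]
              intro h
              exact hj0 (Fin.succ_injective _ (Fin.succ_injective _ h))
            · intro h
              exact hji (Fin.succ_injective _ (Fin.succ_injective _ h))
          rw [this]
          rfl
    · change KaehlerDifferential.D ℤ L (ss x (σ * τ) k.succ.succ.succ) = _
      rw [hss]
      by_cases hki : k = i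
      · rw [hki, Function.update_self]
        have : τ i.succ.succ.succ = 2 := Equiv.swap_apply_right _ _
        rw [this]
      · rw [Function.update_of_ne (fun h => hki (Sum.inr_injective h)), hFr]
        have : τ k.succ.succ.succ = k.succ.succ.succ := by
          rw [hτ]
          apply Equiv.swap_apply_of_ne_of_ne
          · rw [h2]
            intro h
            exact Fin.succ_ne_zero _ (Fin.succ_injective _ (Fin.succ_injective _ h))
          · intro h
            exact hki (Fin.succ_injective _ (Fin.succ_injective _ (Fin.succ_injective _ h)))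
        rw [this]
  -- the relation between the differentials
  have hrel := (hDIF n L x y hn hdat σ).2.2
  rw [Fin.sum_univ_succ, ← h2] at hrel
  have hD2 : ww x y σ 2 ^ (n + 2) • KaehlerDifferential.D ℤ L (ss x σ 2) =
      ∑ k : Fin n, (-(ww x y σ k.succ.succ.succ ^ (n + 2))) • F (Sum.inr k) := by
    rw [eq_neg_of_add_eq_zero_left hrel, ← Finset.sum_neg_distrib]
    apply Finset.sum_congr rfl
    intro k _
    rw [hFr, neg_smul]
  have hAF : A F = -A (cfam x y σ) := by
    rw [hF, he]
    exact A.map_swap _ hne
  have hkey : ww x y σ 2 ^ (n + 2) * A (cfam x y (σ * τ)) =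
      ww x y σ i.succ.succ.succ ^ (n + 2) * A (cfam x y σ) := by
    rw [hcf]
    have h3 : ww x y σ 2 ^ (n + 2) * A (Function.update F (Sum.inr i)
        (KaehlerDifferential.D ℤ L (ss x σ 2))) = A (Function.update F (Sum.inr i)
        (ww x y σ 2 ^ (n + 2) • KaehlerDifferential.D ℤ L (ss x σ 2))) := by
      rw [A.map_update_smul]
      rfl
    rw [h3, hD2, A.map_update_sum]
    rw [Finset.sum_eq_single i]
    · rw [A.map_update_smul, Function.update_eq_self, hAF]
      simp
    · intro k _ hk
      rw [A.map_update_smul, A.map_update_self _ (fun h => hk (Sum.inr_injective h).symm), smul_zero]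
    · intro h
      exact absurd (Finset.mem_univ i) h
  left
  rw [hww, hτ2, hx0]
  calc A (cfam x y (σ * τ)) * (ww x y σ 2 ^ (n + 2) * x (σ 0) ^ (n + 1))
      = (ww x y σ 2 ^ (n + 2) * A (cfam x y (σ * τ))) * x (σ 0) ^ (n + 1) := by ring
    _ = A (cfam x y σ) * (ww x y σ i.succ.succ.succ ^ (n + 2) * x (σ 0) ^ (n + 1)) := by
      rw [hkey]; ring

end Pool.Agent.W2.CB.V23
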